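import Pool.Agent.H20.HY.Slow

/-!
# Images of balls

If for every `l` there is a map `Φ` with bounded fibres which takes at most `P l` values on every ball of
radius `l`, where `log (P l) = o(l)` along a sequence, then `X` has property A (`X` need not have bounded
geometry): pigeonhole over the nested images of the balls.
-/

set_option autoImplicit false

namespace Pool.Agent.H20.TA

open Pool.Agent.H97.BLD Pool.Agent.H66.NCL Pool.Agent.H61.CZ Pool.Agent.H20.HY Filter

universe v

variable {Z : Type v}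

/-- the uniform probability measure on `A` -/
noncomputable def unif (A : Finset Z) : Z →₀ ℝ := (1 / (A.card : ℝ)) • ∑ z ∈ A, Finsupp.single z 1

theorem sum_single_apply (A : Finset Z) (z : Z) [Decidable (z ∈ A)] :
    (∑ y ∈ A, Finsupp.single y (1 : ℝ)) z = if z ∈ A then 1 else 0 := by
  classical
  rw [Finsupp.finsetSum_apply]
  by_cases h : z ∈ A
  · rw [if_pos h, Finset.sum_eq_single z]
    · rw [Finsupp.single_eq_same]
    · intro b _ hb
      rw [Finsupp.single_eq_of_ne' hb]
    · intro h1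
      exact absurd h h1
  · rw [if_neg h]
    refine Finset.sum_eq_zero fun b hb => ?_
    rw [Finsupp.single_eq_of_ne']
    rintro rfl
    exact h hb

theorem unif_nonneg (A : Finset Z) (z : Z) : 0 ≤ unif A z := by
  classical
  rw [unif, Finsupp.smul_apply, sum_single_apply, smul_eq_mul]
  split_ifs <;> positivity

theorem unif_ne_zero {A : Finset Z} {z : Z} (h : unif A z ≠ 0) : z ∈ A := by
  classical
  by_contra h1
  refine h ?_
  rw [unif, Finsupp.smul_apply, sum_single_apply, if_neg h1, smul_zero]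

theorem sum_sum_single (A : Finset Z) :
    ((∑ z ∈ A, Finsupp.single z (1 : ℝ)).sum fun _ t => t) = A.card := by
  rw [sum_finsetSum, Finset.sum_congr rfl fun z _ => Finsupp.sum_single_index rfl, Finset.sum_const,
    nsmul_eq_mul, mul_one]

theorem unif_sum {A : Finset Z} (hA : A.Nonempty) : ((unif A).sum fun _ t => t) = 1 := by
  rw [unif, sum_smul, sum_sum_single]
  have h1 : (0 : ℝ) < A.card := by exact_mod_cast hA.card_pos
  field_simp

theorem n1_sum_single (A : Finset Z) : n1 (∑ z ∈ A, Finsupp.single z (1 : ℝ)) ≤ A.card := by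
  refine (n1_sum_le _ _).trans ?_
  have h1 : ∀ z ∈ A, n1 (Finsupp.single z (1 : ℝ)) ≤ 1 := by
    intro z _
    rw [n1, Finsupp.sum_single_index abs_zero, abs_one]
  refine (Finset.sum_le_sum h1).trans ?_
  rw [Finset.sum_const, nsmul_eq_mul, mul_one]

/-- uniform measures on nested sets -/
theorem n1_unif_sub {A B : Finset Z} (hA : A.Nonempty) (h : A ⊆ B) :
    n1 (unif A - unif B) ≤ 2 * (Real.log B.card - Real.log A.card) := by
  classical
  obtain ⟨a, ha⟩ : ∃ a : ℝ, a = A.card := ⟨_, rfl⟩
  obtain ⟨b, hb⟩ : ∃ b : ℝ, b = B.card := ⟨_, rfl⟩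
  have ha0 : 0 < a := by
    rw [ha]
    exact_mod_cast hA.card_pos
  have hab : a ≤ b := by
    rw [ha, hb]
    exact_mod_cast Finset.card_le_card h
  have hb0 : 0 < b := lt_of_lt_of_le ha0 hab
  have h1 : unif A - unif B = (1 / a - 1 / b) • (∑ z ∈ A, Finsupp.single z (1 : ℝ)) -
      (1 / b) • ∑ z ∈ B \ A, Finsupp.single z (1 : ℝ) := by
    rw [unif, unif, ← ha, ← hb, ← Finset.sum_sdiff h, sub_smul, smul_add]
    abel
  have h2 : n1 (unif A - unif B) ≤ (1 / a - 1 / b) * a + (1 / b) * (b - a) := by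
    rw [h1]
    refine (n1_sub_le _ _).trans ?_
    have h3 : 0 ≤ 1 / a - 1 / b := by
      rw [sub_nonneg]
      exact one_div_le_one_div_of_le ha0 hab
    rw [n1_smul h3, n1_smul (by positivity)]
    have h4 := n1_sum_single A
    have h5 := n1_sum_single (B \ A)
    have h6 : (((B \ A).card : ℕ) : ℝ) = b - a := by
      have h7 := Finset.card_sdiff_add_card_eq_card h
      rw [ha, hb, ← h7]
      push_cast
      ring
    rw [h6] at h5
    rw [← ha] at h4
    exact add_le_add (mul_le_mul_of_nonneg_left h4 h3)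
      (mul_le_mul_of_nonneg_left h5 (by positivity))
  have h3 : (1 / a - 1 / b) * a + (1 / b) * (b - a) = 2 * (1 - a / b) := by
    field_simp
    ring
  have h4 : 1 - a / b ≤ Real.log b - Real.log a := by
    have h5 := Real.one_sub_inv_le_log_of_pos (div_pos hb0 ha0)
    rw [Real.log_div hb0.ne' ha0.ne', inv_div] at h5
    exact h5
  rw [← ha, ← hb]
  linarith

variable {X : Type v} [MetricSpace X]

/-- **Maps with bounded fibres and few values on balls give property A.** -/
theorem spaceA_of_image (P : ℕ → ℝ)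
    (hP : ∀ δ : ℝ, 0 < δ → ∃ᶠ l : ℕ in atTop, Real.log (P l) ≤ δ * l)
    (h : ∀ l : ℕ, ∃ (Z : Type v) (Φ : X → Z) (D : ℝ), (∀ x y, Φ x = Φ y → dist x y ≤ D) ∧
      ∀ x, (Φ '' Metric.closedBall x (l : ℝ)).Finite ∧
        ((Φ '' Metric.closedBall x (l : ℝ)).ncard : ℝ) ≤ P l) : SpaceA X := by
  classical
  intro R₀ ε hε
  obtain ⟨r, hr1, hrR⟩ : ∃ r : ℕ, 1 ≤ r ∧ R₀ ≤ r := by
    obtain ⟨n, hn⟩ := exists_nat_ge R₀
    exact ⟨n + 1, by omega, hn.trans (by push_cast; linarith)⟩
  have hr0 : (0 : ℝ) < r := by exact_mod_cast hr1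
  obtain ⟨l₀, hl₀⟩ := exists_nat_ge (4 * (r : ℝ) + 8 * r / ε)
  obtain ⟨l, hl, hlP⟩ := (frequently_atTop.1 (hP (ε / (16 * r)) (by positivity))) l₀
  obtain ⟨Z, Φ, D, hD, hΦ⟩ := h l
  obtain ⟨M, hM⟩ : ∃ M : ℕ, M = l / r - 1 := ⟨_, rfl⟩
  have hl4 : 4 * (r : ℝ) + 8 * r / ε ≤ l := hl₀.trans (by exact_mod_cast hl)
  have h8 : 0 < 8 * (r : ℝ) / ε := by positivity
  have hl4' : 4 * r ≤ l := by
    have : 4 * (r : ℝ) ≤ l := by linarith
    exact_mod_cast this
  have hdiv : 4 ≤ l / r := (Nat.le_div_iff_mul_le hr1).2 hl4'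
  have hM1 : (M + 1) * r ≤ l := by
    have h1 : M + 1 = l / r := by omega
    rw [h1]
    exact Nat.div_mul_le_self l r
  have hM2 : l < (M + 2) * r := by
    have h1 : M + 2 = l / r + 1 := by omega
    rw [h1, mul_comm]
    exact Nat.lt_mul_div_succ l hr1
  have hM0 : 0 < M := by omega
  have hM0' : (0 : ℝ) < M := by exact_mod_cast hM0
  obtain ⟨S, hS⟩ : ∃ S : ℕ → X → Set Z, S = fun k x =>
    Φ '' Metric.closedBall x ((k * r : ℕ) : ℝ) := ⟨_, rfl⟩
  have hSl : ∀ k, k ≤ M + 1 → ∀ x, S k x ⊆ Φ '' Metric.closedBall x (l : ℝ) := by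
    intro k hk x
    rw [hS]
    refine Set.image_mono (Metric.closedBall_subset_closedBall ?_)
    have h1 : k * r ≤ l := (Nat.mul_le_mul_right r hk).trans hM1
    exact_mod_cast h1
  have hfin : ∀ k, k ≤ M + 1 → ∀ x, (S k x).Finite := fun k hk x => (hΦ x).1.subset (hSl k hk x)
  obtain ⟨A, hA⟩ : ∃ A : ℕ → X → Finset Z, A = fun k x =>
    if h : (S k x).Finite then h.toFinset else ∅ := ⟨_, rfl⟩
  have hmem : ∀ k, k ≤ M + 1 → ∀ x z, z ∈ A k x ↔ z ∈ S k x := by
    intro k hk x z
    rw [hA]
    simp only [dif_pos (hfin k hk x), Set.Finite.mem_toFinset]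
  have hne : ∀ k, k ≤ M + 1 → ∀ x, (A k x).Nonempty := by
    intro k hk x
    refine ⟨Φ x, (hmem k hk x _).2 ?_⟩
    rw [hS]
    exact ⟨x, Metric.mem_closedBall_self (Nat.cast_nonneg _), rfl⟩
  have hsub : ∀ k, k + 1 ≤ M + 1 → ∀ x y, dist x y ≤ r → A k x ⊆ A (k + 1) y := by
    intro k hk x y hxy z hz
    rw [hmem k (by omega)] at hz
    rw [hmem (k + 1) hk]
    rw [hS] at hz ⊢
    refine Set.image_mono (fun w hw => ?_) hz
    rw [Metric.mem_closedBall] at hw ⊢
    have h1 := dist_triangle w x y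
    push_cast at hw ⊢
    linarith
  have hcard : ∀ k, k ≤ M + 1 → ∀ x, Real.log (A k x).card ≤ Real.log (P l) := by
    intro k hk x
    have h1 : ((A k x).card : ℝ) ≤ P l := by
      refine le_trans ?_ (hΦ x).2
      have h2 : (A k x : Set Z) ⊆ Φ '' Metric.closedBall x (l : ℝ) := by
        intro z hz
        exact hSl k hk x ((hmem k hk x z).1 hz)
      have h3 := Set.ncard_le_ncard h2 (hΦ x).1
      rw [Set.ncard_coe_finset] at h3
      exact_mod_cast h3
    refine Real.log_le_log ?_ h1
    exact_mod_cast (hne k hk x).card_pos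
  have hlog0 : ∀ k x, 0 ≤ Real.log (A k x).card := fun k x => Real.log_natCast_nonneg _
  refine ⟨Z, fun x => (1 / (M : ℝ)) • ∑ k ∈ Finset.range M, unif (A k x), D + 2 * l, ?_, ?_, ?_, ?_⟩
  · intro x z
    rw [Finsupp.smul_apply, smul_eq_mul, Finsupp.finsetSum_apply]
    exact mul_nonneg (by positivity) (Finset.sum_nonneg fun k _ => unif_nonneg _ _)
  · intro x
    rw [sum_smul, sum_finsetSum]
    have h1 : ∀ k ∈ Finset.range M, ((unif (A k x)).sum fun _ t => t) = 1 := by
      intro k hk
      rw [Finset.mem_range] at hk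
      exact unif_sum (hne k (by omega) x)
    rw [Finset.sum_congr rfl h1, Finset.sum_const, Finset.card_range, nsmul_eq_mul, mul_one]
    field_simp
  · intro x y hxy
    have hxy' : dist x y ≤ r := hxy.trans hrR
    have hyx' : dist y x ≤ r := by
      rw [dist_comm]
      exact hxy'
    have h1 : (1 / (M : ℝ)) • (∑ k ∈ Finset.range M, unif (A k x)) -
        (1 / (M : ℝ)) • ∑ k ∈ Finset.range M, unif (A k y) =
        (1 / (M : ℝ)) • ((∑ k ∈ Finset.range M, (unif (A k x) - unif (A (k + 1) y))) +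
          (unif (A M y) - unif (A 0 y))) := by
      rw [← smul_sub, Finset.sum_sub_distrib, ← Finset.sum_range_sub (fun k => unif (A k y)) M,
        Finset.sum_sub_distrib]
      congr 1
      abel
    have h2 : n1 (∑ k ∈ Finset.range M, (unif (A k x) - unif (A (k + 1) y))) ≤
        4 * Real.log (P l) := by
      refine (n1_sum_le _ _).trans ?_
      have h3 : ∀ k ∈ Finset.range M, n1 (unif (A k x) - unif (A (k + 1) y)) ≤
          2 * (Real.log (A (k + 2) x).card - Real.log (A k x).card) := by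
        intro k hk
        rw [Finset.mem_range] at hk
        refine (n1_unif_sub (hne k (by omega) x) (hsub k (by omega) x y hxy')).trans ?_
        have h4 : Real.log (A (k + 1) y).card ≤ Real.log (A (k + 2) x).card := by
          refine Real.log_le_log ?_ ?_
          · exact_mod_cast (hne (k + 1) (by omega) y).card_pos
          · exact_mod_cast Finset.card_le_card (hsub (k + 1) (by omega) y x hyx')
        linarith
      refine (Finset.sum_le_sum h3).trans ?_
      rw [← Finset.mul_sum]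
      have h4 := sum_two_step (fun k => Real.log (A k x).card) M (Real.log (P l))
        (fun k => hlog0 k x) (fun k hk => hcard k hk x)
      linarith
    have h3 : n1 (unif (A M y) - unif (A 0 y)) ≤ 2 := by
      refine (n1_sub_le _ _).trans ?_
      rw [n1_of_prob (unif_nonneg _) (unif_sum (hne M (by omega) y)),
        n1_of_prob (unif_nonneg _) (unif_sum (hne 0 (by omega) y))]
      norm_num
    rw [h1, n1_smul (by positivity), one_div, inv_mul_le_iff₀ hM0']
    refine (n1_add_le _ _).trans ?_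
    have h5 : (l : ℝ) < (M + 2) * r := by exact_mod_cast hM2
    have h6 : 8 * (r : ℝ) ≤ ε * (l - 4 * r) := by
      have h7 : 8 * (r : ℝ) / ε ≤ l - 4 * r := by linarith
      rw [div_le_iff₀ hε] at h7
      linarith
    have h7 : 4 * Real.log (P l) ≤ 4 * (ε / (16 * r) * l) := by linarith
    have h8 : 4 * (ε / (16 * r) * l) * r = ε * l / 4 := by
      field_simp
      ring
    have h9 : (4 * Real.log (P l) + 2) * r ≤ M * ε * r := by
      have h10 : 4 * Real.log (P l) * r ≤ ε * l / 4 := by
        rw [← h8]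
        exact mul_le_mul_of_nonneg_right h7 hr0.le
      have h11 : ε * l < ε * ((M + 2) * r) := mul_lt_mul_of_pos_left h5 hε
      have h12 : 0 < ε * r := by positivity
      nlinarith
    have h10 : 4 * Real.log (P l) + 2 ≤ M * ε := le_of_mul_le_mul_right h9 hr0
    linarith
  · intro x y z hx hy
    obtain ⟨i, hi, hi'⟩ := exists_of_avg_ne M (fun k => unif (A k x)) hx
    obtain ⟨j, hj, hj'⟩ := exists_of_avg_ne M (fun k => unif (A k y)) hy
    have h1 := hSl i (by omega) x ((hmem i (by omega) x z).1 (unif_ne_zero hi'))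
    have h2 := hSl j (by omega) y ((hmem j (by omega) y z).1 (unif_ne_zero hj'))
    obtain ⟨x', hx', rfl⟩ := h1
    obtain ⟨y', hy', h3⟩ := h2
    rw [Metric.mem_closedBall] at hx' hy'
    have h4 := hD x' y' h3.symm
    have h5 := dist_triangle4 x x' y' y
    rw [dist_comm x x'] at h5
    linarith

end Pool.Agent.H20.TA
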